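import Pool.Agent.H41.GWF4

set_option autoImplicit false

open MeasureTheory ProbabilityTheory Pool.Agent.H41.Frog Pool.Agent.H41.GWF
open scoped NNReal ENNReal

theorem Pool.Agent.Results.MP_ac6ae5_pr.Holds.result (p : Measure ℕ) [IsProbabilityMeasure p]
    (hp : 1 < ∫⁻ k, (k : ℝ≥0∞) ∂p) :
    0 < GW p {ζ | Infinite (Vx ζ)} ∧ ∃ l0 : ℝ≥0, 0 < l0 ∧ ∀ lam : ℝ≥0, lam ≤ l0 →
      ∀ᵐ ζ ∂(cond (GW p) {ζ | Infinite (Vx ζ)}), Transient (tree ζ) (root ζ) lam :=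
  main p hp
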